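import Pool.Agent.OTree.Geo

/-!
# From a sequence of columns to a net (module GeoNet)

Statement to prove: `net_of_cols`.

Plan.  Write `w F` for the length of the face `F` along its left-right direction, `h F` for the
length along its down-up direction (both positive).  For a face `F` with left side number `l` put
`R = sdir (rgt F)`, `U = sdir (up F)` (perpendicular directions, both perpendicular to the normal).

1. `glueG (rgt F) (lft G)`: the common segment gives that the up directions agree, that `h F = h G`,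
   and that the coordinates of the two faces along the up axis are the same interval.
   `glueG (up F) (dwn G)`: the left directions agree, `w F = w G`, same interval along the left axis.
   (An edge `b.edge d e` is `{p | p d.1 = lev d, p e.1 = lev e, lo ≤ p third ≤ hi}`, a nondegenerate
   segment parallel to the third axis; so equality of two edges gives the axis and the interval.)
2. All faces of one column have the same width; let `X k` be the sum of the widths of the columns
   before column `k`.  Choose for every pair of consecutive columns one link `(F, G)`.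
   Define `Y` on the faces (in terms of the index (column, row)) by: `Y` of the bottom face of column
   `0` is `0`, `Y (k, r+1) = Y (k, r) + h (k, r)`, and `Y G = Y F` for the chosen link.
3. `dev` maps the face with index `(k, r)` by
   `p ↦ (X k + distance of p from the left side, Y (k,r) + distance of p from the lower side)`
   which is `(X k + s * (p a - c), Y + s' * (p a' - c'))` with signs `s, s'`, axes `a, a'`.
   This is an isometry on the face, since the face lies in a plane `p a'' = const`; the image is the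
   closed rectangle `[X, X + w] × [Y, Y + h]`, whose interior is the open rectangle.
4. Uncut edges: the common sides of vertically consecutive faces of a column, and the chosen links.
   `C` is the set of all other edges of the gridded surface.  By `htwo` the faces which contain such
   an edge are the two faces glued there, which gives `glue`, and gives a description of `dual b C`.
5. `dual b C` is a tree: rank the face `(k, r)` by `(k, |r - r₀ k|)`, where `r₀ k` is the row of the
   face of column `k` at the chosen link from column `k - 1` (`r₀ 0 = 0`).  Every face except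
   `(0, 0)` has exactly one neighbour of smaller rank and adjacent faces have different ranks, hence
   the graph is connected and acyclic (for instance: connected by induction, and the number of edges
   is the number of faces minus one: `SimpleGraph.isTree_iff_connected_and_card`; or remove leaves).
6. Disjointness: different columns are separated by a vertical line, different rows of one column by
   a horizontal line.
-/

namespace Pool.Agent.OTree

/-! ### trees given by a parent function -/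

section tree

variable {V : Type}

theorem isTree_of_parent [Finite V] (G : SimpleGraph V) (root : V) (π : V → V) (ρ : V → ℕ)
    (hρ : ∀ v, v ≠ root → ρ (π v) < ρ v)
    (hadj : ∀ u v, G.Adj u v ↔ (u ≠ root ∧ π u = v) ∨ (v ≠ root ∧ π v = u)) : G.IsTree := by
  classical
  have hreach : ∀ N : ℕ, ∀ v, ρ v = N → G.Reachable v root := by
    intro N
    induction N using Nat.strong_induction_on with
    | _ N ih =>
      intro v hv
      by_cases hr : v = root
      · rw [hr]
      · have h1 : G.Adj v (π v) := (hadj _ _).2 (Or.inl ⟨hr, rfl⟩)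
        exact h1.reachable.trans (ih (ρ (π v)) (hv ▸ hρ v hr) (π v) rfl)
  have hconn : G.Connected := by
    have : Nonempty V := ⟨root⟩
    exact ⟨fun u v => (hreach _ u rfl).trans (hreach _ v rfl).symm⟩
  rw [SimpleGraph.isTree_iff_connected_and_card]
  refine ⟨hconn, le_antisymm ?_ hconn.card_vert_le_card_edgeSet_add_one⟩
  have := Fintype.ofFinite V
  have hsub : ∃ f : {v : V // v ≠ root} → G.edgeSet, Function.Surjective f := by
    refine ⟨fun v => ⟨s(v.1, π v.1), by
      rw [SimpleGraph.mem_edgeSet]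
      exact (hadj _ _).2 (Or.inl ⟨v.2, rfl⟩)⟩, ?_⟩
    rintro ⟨e, he⟩
    induction e using Sym2.ind with
    | _ x y =>
      rw [SimpleGraph.mem_edgeSet] at he
      rcases (hadj _ _).1 he with ⟨h1, h2⟩ | ⟨h1, h2⟩
      · refine ⟨⟨x, h1⟩, ?_⟩
        simp [h2]
      · refine ⟨⟨y, h1⟩, ?_⟩
        simp [h2, Sym2.eq_swap]
  obtain ⟨f, hf⟩ := hsub
  have h1 : Nat.card G.edgeSet ≤ Nat.card {v : V // v ≠ root} := Nat.card_le_card_of_surjective f hf
  have h2 : Nat.card {v : V // v ≠ root} + 1 = Nat.card V := by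
    rw [Nat.card_eq_fintype_card, Nat.card_eq_fintype_card, Fintype.card_subtype_compl]
    simp
    have : 0 < Fintype.card V := Fintype.card_pos_iff.2 ⟨root⟩
    omega
  omega

end tree

/-! ### edges of bricks -/

theorem ax_third {a b c : Fin 3} (h1 : a ≠ b) (h2 : c ≠ a) (h3 : c ≠ b) (s : Fin 3) :
    s = a ∨ s = b ∨ s = c := by
  revert a b c s
  decide

theorem sum_axes {a b c : Fin 3} (h1 : a ≠ b) (h2 : c ≠ a) (h3 : c ≠ b) (f : Fin 3 → ℝ) :
    ∑ s, f s = f a + f b + f c := by
  have h : (Finset.univ : Finset (Fin 3)) = {a, b, c} := by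
    revert a b c
    decide
  rw [h, Finset.sum_insert, Finset.sum_insert, Finset.sum_singleton, add_assoc]
  · simpa using h3.symm
  · simp only [Finset.mem_insert, Finset.mem_singleton, not_or]
    exact ⟨h1, h2.symm⟩

/-- the point of the edge with third coordinate `x` -/
noncomputable def ept (B : Brick) (d e : Dir) (x : ℝ) : R3 :=
  WithLp.toLp 2 (fun s => if s = d.1 then B.lev d else if s = e.1 then B.lev e else x)

theorem lev_mem (B : Brick) (d : Dir) : B.lo d.1 ≤ B.lev d ∧ B.lev d ≤ B.hi d.1 := by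
  have := (B.lt d.1).le
  unfold Brick.lev
  split_ifs <;> simp [this]

theorem ept_mem (B : Brick) {d e : Dir} {t : Fin 3} (hde : d.1 ≠ e.1) (h2 : t ≠ d.1)
    (h3 : t ≠ e.1) {x : ℝ} (hx : B.lo t ≤ x) (hx' : x ≤ B.hi t) : ept B d e x ∈ B.edge d e := by
  refine ⟨fun s => ?_, ?_, ?_⟩
  · rcases ax_third hde h2 h3 s with rfl | rfl | rfl
    · simpa [ept] using lev_mem B d
    · simpa [ept, hde.symm] using lev_mem B e
    · simpa [ept, h2, h3] using ⟨hx, hx'⟩
  · simp [ept]
  · simp [ept, hde.symm]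

theorem ept_third (B : Brick) {d e : Dir} {t : Fin 3} (h2 : t ≠ d.1)
    (h3 : t ≠ e.1) (x : ℝ) : (ept B d e x) t = x := by
  simp [ept, h2, h3]

theorem ept_other (B : Brick) {d e : Dir} {t : Fin 3} (hde : d.1 ≠ e.1) (h2 : t ≠ d.1)
    (h3 : t ≠ e.1) (x y : ℝ) {s : Fin 3} (hs : s ≠ t) : (ept B d e x) s = (ept B d e y) s := by
  rcases ax_third hde h2 h3 s with rfl | rfl | rfl
  · simp [ept]
  · simp [ept]
  · exact absurd rfl hs

theorem edge_sub {B B' : Brick} {d e d' e' : Dir} {t t' : Fin 3} (hde : d.1 ≠ e.1) (h2 : t ≠ d.1)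
    (h3 : t ≠ e.1) (hde' : d'.1 ≠ e'.1) (h2' : t' ≠ d'.1) (h3' : t' ≠ e'.1)
    (h : B.edge d e ⊆ B'.edge d' e') : t = t' ∧ B'.lo t ≤ B.lo t ∧ B.hi t ≤ B'.hi t := by
  have hlt := B.lt t
  have m1 := h (ept_mem B hde h2 h3 le_rfl hlt.le)
  have m2 := h (ept_mem B hde h2 h3 hlt.le le_rfl)
  have e1 := ept_third B (d := d) (e := e) h2 h3 (B.lo t)
  have e2 := ept_third B (d := d) (e := e) h2 h3 (B.hi t)
  have htt : t = t' := by
    rcases ax_third hde' h2' h3' t with rfl | rfl | rfl
    · exfalso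
      have a1 := m1.2.1
      have a2 := m2.2.1
      rw [e1] at a1
      rw [e2] at a2
      linarith
    · exfalso
      have a1 := m1.2.2
      have a2 := m2.2.2
      rw [e1] at a1
      rw [e2] at a2
      linarith
    · rfl
  refine ⟨htt, ?_, ?_⟩
  · have := (m1.1 t).1
    rwa [e1] at this
  · have := (m2.1 t).2
    rwa [e2] at this

theorem edge_eq {B B' : Brick} {d e d' e' : Dir} {t t' : Fin 3} (hde : d.1 ≠ e.1) (h2 : t ≠ d.1)
    (h3 : t ≠ e.1) (hde' : d'.1 ≠ e'.1) (h2' : t' ≠ d'.1) (h3' : t' ≠ e'.1)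
    (h : B.edge d e = B'.edge d' e') : t = t' ∧ B.lo t = B'.lo t ∧ B.hi t = B'.hi t := by
  obtain ⟨a1, a2, a3⟩ := edge_sub hde h2 h3 hde' h2' h3' h.subset
  obtain ⟨b1, b2, b3⟩ := edge_sub hde' h2' h3' hde h2 h3 h.symm.subset
  rw [b1] at b2 b3
  exact ⟨a1, le_antisymm b2 a2, le_antisymm a3 b3⟩

/-! ### axes of the sides -/

theorem rotd_ax (d g : Dir) (h : g.1 ≠ d.1) (k : Fin 4) :
    (rotd d g k).1 ≠ d.1 ∧ (rotd d g (k + 1)).1 ≠ d.1 ∧ (rotd d g (k + 1)).1 ≠ (rotd d g k).1 ∧
      rotd d g (k + 2) = opp (rotd d g k) := by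
  obtain ⟨d1, d2⟩ := d
  obtain ⟨g1, g2⟩ := g
  simp only at h
  fin_cases k
  · refine ⟨h, ?_, ?_, rfl⟩
    · show -(d1 + g1) ≠ d1
      revert h; revert d1 g1; decide
    · show -(d1 + g1) ≠ g1
      revert h; revert d1 g1; decide
  · refine ⟨?_, h, ?_, rfl⟩
    · show -(d1 + g1) ≠ d1
      revert h; revert d1 g1; decide
    · show g1 ≠ -(d1 + g1)
      revert h; revert d1 g1; decide
  · refine ⟨h, ?_, ?_, ?_⟩
    · show -(d1 + g1) ≠ d1
      revert h; revert d1 g1; decide
    · show -(d1 + g1) ≠ g1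
      revert h; revert d1 g1; decide
    · show (g1, g2) = (g1, !(!g2))
      simp
  · refine ⟨?_, h, ?_, ?_⟩
    · show -(d1 + g1) ≠ d1
      revert h; revert d1 g1; decide
    · show g1 ≠ -(d1 + g1)
      revert h; revert d1 g1; decide
    · show cr (d1, d2) (g1, g2) = opp (opp (cr (d1, d2) (g1, g2)))
      simp [opp]

variable {n : ℕ}

/-- left direction -/
def dL (F : OF (FA n)) : Dir := sdir (lft F)
/-- down direction -/
def dD (F : OF (FA n)) : Dir := sdir (dwn F)

theorem sdir_rgt (F : OF (FA n)) : sdir (rgt F) = opp (dL F) :=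
  (rotd_ax F.1.d F.1.g F.1.h F.2).2.2.2

theorem sdir_up (F : OF (FA n)) : sdir (up F) = opp (dD F) := by
  have h := (rotd_ax F.1.d F.1.g F.1.h (F.2 + 1)).2.2.2
  have e : F.2 + 1 + 2 = F.2 + 3 := by
    have := F.2
    revert this
    intro k
    generalize F.2 = x
    revert x
    decide
  rw [e] at h
  exact h

theorem dL_ax (F : OF (FA n)) : (dL F).1 ≠ F.1.d.1 := (rotd_ax F.1.d F.1.g F.1.h F.2).1
theorem dD_ax (F : OF (FA n)) : (dD F).1 ≠ F.1.d.1 := (rotd_ax F.1.d F.1.g F.1.h F.2).2.1
theorem dLD_ax (F : OF (FA n)) : (dD F).1 ≠ (dL F).1 := (rotd_ax F.1.d F.1.g F.1.h F.2).2.2.1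

theorem opp_ax (d : Dir) : (opp d).1 = d.1 := rfl

theorem opp_inj {d e : Dir} (h : opp d = opp e) : d = e := by
  obtain ⟨d1, d2⟩ := d
  obtain ⟨e1, e2⟩ := e
  simp only [opp, Prod.mk.injEq] at h
  obtain ⟨h1, h2⟩ := h
  subst h1
  cases d2 <;> cases e2 <;> simp_all

/-- gluing of vertically consecutive faces -/
theorem glue_v (b : Fin n → Brick) (F G : OF (FA n)) (h : glueG b (up F) (dwn G)) :
    dL F = dL G ∧ (b F.1.i).lo (dL F).1 = (b G.1.i).lo (dL F).1 ∧
      (b F.1.i).hi (dL F).1 = (b G.1.i).hi (dL F).1 := by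
  obtain ⟨h1, h2⟩ := h
  have e1 : dL F = dL G := by
    have a1 : ((up F).1, (up F).2 + 1) = lft F := by
      simp only [up, lft]
      congr 1
      generalize F.2 = x
      revert x
      decide
    have a2 : ((dwn G).1, (dwn G).2 + 3) = lft G := by
      simp only [dwn, lft]
      congr 1
      generalize G.2 = x
      revert x
      decide
    rw [a1, a2] at h2
    exact h2
  refine ⟨e1, ?_⟩
  have h3 : (b F.1.i).edge F.1.d (sdir (up F)) = (b G.1.i).edge G.1.d (sdir (dwn G)) := h1
  rw [sdir_up] at h3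
  obtain ⟨-, h4, h5⟩ := edge_eq (t := (dL F).1) (t' := (dL G).1)
    (by rw [opp_ax]; exact (dD_ax F).symm) (dL_ax F) (by rw [opp_ax]; exact (dLD_ax F).symm)
    (dD_ax G).symm (dL_ax G) (dLD_ax G).symm h3
  exact ⟨h4, h5⟩

/-- gluing of two faces of consecutive columns -/
theorem glue_h (b : Fin n → Brick) (F G : OF (FA n)) (h : glueG b (rgt F) (lft G)) :
    dD F = dD G ∧ (b F.1.i).lo (dD F).1 = (b G.1.i).lo (dD F).1 ∧
      (b F.1.i).hi (dD F).1 = (b G.1.i).hi (dD F).1 := by
  obtain ⟨h1, h2⟩ := h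
  have e1 : dD F = dD G := by
    have a1 : ((rgt F).1, (rgt F).2 + 1) = up F := by
      simp only [rgt, up]
      congr 1
      generalize F.2 = x
      revert x
      decide
    have a2 : ((lft G).1, (lft G).2 + 3) = up G := rfl
    rw [a1, a2, sdir_up, sdir_up] at h2
    exact opp_inj h2
  refine ⟨e1, ?_⟩
  have h3 : (b F.1.i).edge F.1.d (sdir (rgt F)) = (b G.1.i).edge G.1.d (sdir (lft G)) := h1
  rw [sdir_rgt] at h3
  obtain ⟨-, h4, h5⟩ := edge_eq (t := (dD F).1) (t' := (dD G).1)
    (by rw [opp_ax]; exact (dL_ax F).symm) (dD_ax F) (by rw [opp_ax]; exact dLD_ax F)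
    (dL_ax G).symm (dD_ax G) (dLD_ax G) h3
  exact ⟨h4, h5⟩

/-! ### placing a face in the plane -/

/-- distance from the side in direction `e` -/
noncomputable def dfr (B : Brick) (e : Dir) (p : R3) : ℝ :=
  if e.2 then B.hi e.1 - p e.1 else p e.1 - B.lo e.1

/-- length of a brick along an axis -/
noncomputable def len (B : Brick) (e : Dir) : ℝ := B.hi e.1 - B.lo e.1

theorem len_pos (B : Brick) (e : Dir) : 0 < len B e := sub_pos.2 (B.lt e.1)

theorem dfr_mem (B : Brick) (e : Dir) {p : R3} (hp : p ∈ B.toSet) :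
    0 ≤ dfr B e p ∧ dfr B e p ≤ len B e := by
  have h := hp e.1
  unfold dfr len
  split_ifs <;> constructor <;> linarith [h.1, h.2]

theorem dfr_zero (B : Brick) (e : Dir) {p : R3} (hp : p e.1 = B.lev e) : dfr B e p = 0 := by
  unfold dfr
  unfold Brick.lev at hp
  split_ifs at hp ⊢ <;> linarith

theorem dfr_len (B : Brick) (e : Dir) {p : R3} (hp : p e.1 = B.lev (opp e)) :
    dfr B e p = len B e := by
  unfold dfr len
  unfold Brick.lev opp at hp
  cases h : e.2 <;> simp [h] at hp ⊢ <;> linarith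

theorem dfr_congr {B B' : Brick} {e : Dir} (h1 : B.lo e.1 = B'.lo e.1) (h2 : B.hi e.1 = B'.hi e.1)
    (p : R3) : dfr B e p = dfr B' e p := by
  unfold dfr
  rw [h1, h2]

theorem dfr_sq (B : Brick) (e : Dir) (p q : R3) :
    (dfr B e p - dfr B e q) ^ 2 = (p e.1 - q e.1) ^ 2 := by
  unfold dfr
  split_ifs <;> ring

/-- placement of the face `F` with lower left corner `(X, Y)` -/
noncomputable def plc (b : Fin n → Brick) (F : OF (FA n)) (X Y : ℝ) (p : R3) : R2 :=
  !₂[X + dfr (b F.1.i) (dL F) p, Y + dfr (b F.1.i) (dD F) p]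

theorem plc_isom (b : Fin n → Brick) (F : OF (FA n)) (X Y : ℝ) {p q : R3}
    (hp : p ∈ F.1.set b) (hq : q ∈ F.1.set b) : dist (plc b F X Y p) (plc b F X Y q) = dist p q := by
  rw [EuclideanSpace.dist_eq, EuclideanSpace.dist_eq]
  congr 1
  rw [Fin.sum_univ_two, sum_axes (dLD_ax F) (dD_ax F).symm (dL_ax F).symm]
  have h0 : p F.1.d.1 = q F.1.d.1 := by
    rw [hp.2, hq.2]
  have h1 := dfr_sq (b F.1.i) (dL F) p q
  have h2 := dfr_sq (b F.1.i) (dD F) p q
  simp only [plc, Real.dist_eq, sq_abs, h0, sub_self]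
  simp only [PiLp.toLp_apply, Matrix.cons_val_zero, Matrix.cons_val_one, Matrix.cons_val_fin_one]
  have e1 : (X + dfr (b F.1.i) (dL F) p - (X + dfr (b F.1.i) (dL F) q)) ^ 2 =
      (p.ofLp (dL F).1 - q.ofLp (dL F).1) ^ 2 := by
    rw [← h1]; ring
  have e2 : (Y + dfr (b F.1.i) (dD F) p - (Y + dfr (b F.1.i) (dD F) q)) ^ 2 =
      (p.ofLp (dD F).1 - q.ofLp (dD F).1) ^ 2 := by
    rw [← h2]; ring
  rw [e1, e2]
  ring

theorem plc_mem (b : Fin n → Brick) (F : OF (FA n)) (X Y : ℝ) {p : R3} (hp : p ∈ F.1.set b) :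
    (X ≤ (plc b F X Y p) 0 ∧ (plc b F X Y p) 0 ≤ X + len (b F.1.i) (dL F)) ∧
    (Y ≤ (plc b F X Y p) 1 ∧ (plc b F X Y p) 1 ≤ Y + len (b F.1.i) (dD F)) := by
  have h1 := dfr_mem (b F.1.i) (dL F) hp.1
  have h2 := dfr_mem (b F.1.i) (dD F) hp.1
  simp only [plc, Matrix.cons_val_zero, Matrix.cons_val_one,
    Matrix.cons_val_fin_one]
  refine ⟨⟨by linarith [h1.1], by linarith [h1.2]⟩, ⟨by linarith [h2.1], by linarith [h2.2]⟩⟩

/-! ### columns as functions -/

/-- the data of a sequence of columns as functions: `K` columns, column `k` has `R k` faces `A k r` -/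
structure ColF (b : Fin n → Brick) (K : ℕ) (R : ℕ → ℕ) (A : ℕ → ℕ → OF (FA n)) : Prop where
  K_pos : 0 < K
  R_pos : ∀ k < K, 0 < R k
  stack : ∀ k < K, ∀ r, r + 1 < R k → glueG b (up (A k r)) (dwn (A k (r + 1)))
  link : ∀ k, k + 1 < K → ∃ r < R k, ∃ r' < R (k + 1), glueG b (rgt (A k r)) (lft (A (k + 1) r'))
  inj : ∀ k < K, ∀ r < R k, ∀ k' < K, ∀ r' < R k', (A k r).1.i = (A k' r').1.i →
    (A k r).1.d = (A k' r').1.d → k = k' ∧ r = r'
  surf : ∀ k < K, ∀ r < R k, (A k r).1.set b ⊆ surface b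
  cov : ∀ i d, (b i).face d ⊆ surface b → ∃ k < K, ∃ r < R k, (A k r).1.i = i ∧ (A k r).1.d = d

theorem exists_colF (b : Fin n → Brick) (cols : List (List (OF (FA n))))
    (hc : IsCols (glueG b) cols)
    (hnd : (cols.flatten.map (fun F => (F.1.i, F.1.d))).Nodup)
    (hcov : ∀ i d, (i, d) ∈ cols.flatten.map (fun F => (F.1.i, F.1.d)) ↔
      (b i).face d ⊆ surface b) : ∃ K R A, ColF b K R A := by
  have hK : 0 < cols.length := List.length_pos_iff.2 hc.ne
  have hne0 : cols[0] ≠ [] := hc.col_ne _ (List.getElem_mem hK)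
  have h00 : 0 < (cols[0]).length := List.length_pos_iff.2 hne0
  have gc : ∀ k (hk : k < cols.length), cols.getD k [] = cols[k] := fun k hk =>
    List.getD_eq_getElem _ _ hk
  refine ⟨cols.length, fun k => (cols.getD k []).length,
    fun k r => (cols.getD k []).getD r ((cols[0])[0]), ?_⟩
  have ga : ∀ k (hk : k < cols.length) r (hr : r < (cols.getD k []).length),
      (cols.getD k []).getD r ((cols[0])[0]) = (cols[k])[r]'(by rw [gc k hk] at hr; exact hr) := by
    intro k hk r hr
    simp only [gc k hk]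
    rw [List.getD_eq_getElem]
  have gmem : ∀ k (hk : k < cols.length) r (hr : r < (cols[k]).length),
      (cols[k])[r] ∈ cols.flatten := fun k hk r hr =>
    List.mem_flatten.2 ⟨cols[k], List.getElem_mem hk, List.getElem_mem hr⟩
  have hnd' : ((cols.map (List.map (fun F : OF (FA n) => (F.1.i, F.1.d)))).flatten).Nodup := by
    rw [← List.map_flatten]
    exact hnd
  rw [List.nodup_flatten] at hnd'
  obtain ⟨hn1, hn2⟩ := hnd'
  constructor
  · exact hK
  · intro k hk
    rw [gc k hk]
    exact List.length_pos_iff.2 (hc.col_ne _ (List.getElem_mem hk))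
  · intro k hk r hr
    rw [ga k hk r (by omega), ga k hk (r + 1) hr]
    have h := List.isChain_iff_getElem.1 (hc.stack _ (List.getElem_mem hk)) r
      (by rw [gc k hk] at hr; exact hr)
    exact h
  · intro k hk
    obtain ⟨F, hF, G, hG, hFG⟩ := List.isChain_iff_getElem.1 hc.link k hk
    obtain ⟨r, hr, rfl⟩ := List.getElem_of_mem hF
    obtain ⟨r', hr', rfl⟩ := List.getElem_of_mem hG
    refine ⟨r, by rw [gc k (by omega)]; exact hr, r', by rw [gc _ hk]; exact hr', ?_⟩
    rw [ga k (by omega) r (by rw [gc k (by omega)]; exact hr), ga (k + 1) hk r' (by rw [gc _ hk]; exact hr')]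
    exact hFG
  · intro k hk r hr k' hk' r' hr' h1 h2
    rw [ga k hk r hr, ga k' hk' r' hr'] at h1 h2
    rw [gc k hk] at hr
    rw [gc k' hk'] at hr'
    have heq : (fun F : OF (FA n) => (F.1.i, F.1.d)) ((cols[k])[r]) =
        (fun F : OF (FA n) => (F.1.i, F.1.d)) ((cols[k'])[r']) := by
      simp only [Prod.mk.injEq]
      exact ⟨h1, h2⟩
    have hdis : ∀ a c (ha : a < cols.length) (hcc : c < cols.length), a < c →
        ∀ s (hs : s < (cols[a]).length) s' (hs' : s' < (cols[c]).length),
        (fun F : OF (FA n) => (F.1.i, F.1.d)) ((cols[a])[s]) ≠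
        (fun F : OF (FA n) => (F.1.i, F.1.d)) ((cols[c])[s']) := by
      intro a c ha hcc hac s hs s' hs' hE
      have h := List.pairwise_iff_getElem.1 hn2 a c (by simpa using ha) (by simpa using hcc) hac
      simp only [List.getElem_map] at h
      have m1 : (fun F : OF (FA n) => (F.1.i, F.1.d)) ((cols[a])[s]) ∈
          List.map (fun F : OF (FA n) => (F.1.i, F.1.d)) cols[a] :=
        List.mem_map_of_mem (List.getElem_mem hs)
      have m2 : (fun F : OF (FA n) => (F.1.i, F.1.d)) ((cols[c])[s']) ∈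
          List.map (fun F : OF (FA n) => (F.1.i, F.1.d)) cols[c] :=
        List.mem_map_of_mem (List.getElem_mem hs')
      rw [← hE] at m2
      exact h m1 m2
    rcases lt_trichotomy k k' with hlt | hlt | hlt
    · exact absurd heq (hdis k k' hk hk' hlt r hr r' hr')
    · subst hlt
      refine ⟨rfl, ?_⟩
      have h := hn1 _ (List.mem_map_of_mem (List.getElem_mem hk))
      have h3 := (h.getElem_inj_iff (i := r) (j := r') (hi := by simpa using hr)
        (hj := by simpa using hr')).1 (by simpa using heq)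
      exact h3
    · exact absurd heq.symm (hdis k' k hk' hk hlt r' hr' r hr)
  · intro k hk r hr
    rw [ga k hk r hr]
    rw [gc k hk] at hr
    exact (hcov _ _).1 (List.mem_map.2 ⟨_, gmem k hk r hr, rfl⟩)
  · intro i d hid
    obtain ⟨F, hF, hFid⟩ := List.mem_map.1 ((hcov i d).2 hid)
    obtain ⟨c, hcm, hFc⟩ := List.mem_flatten.1 hF
    obtain ⟨k, hk, rfl⟩ := List.getElem_of_mem hcm
    obtain ⟨r, hr, rfl⟩ := List.getElem_of_mem hFc
    simp only [Prod.mk.injEq] at hFid
    refine ⟨k, hk, r, by rw [gc k hk]; exact hr, ?_⟩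
    rw [ga k hk r (by rw [gc k hk]; exact hr)]
    exact hFid

/-! ### the layout -/

section layout

variable {b : Fin n → Brick} {K : ℕ} {R : ℕ → ℕ} {A : ℕ → ℕ → OF (FA n)}

/-- row of the face of column `k` linked to column `k - 1` -/
def ro (r0 : ℕ → ℕ) : ℕ → ℕ
  | 0 => 0
  | k + 1 => r0 k

/-- horizontal position of column `k` -/
noncomputable def XC (b : Fin n → Brick) (A : ℕ → ℕ → OF (FA n)) : ℕ → ℝ
  | 0 => 0
  | k + 1 => XC b A k + len (b (A k 0).1.i) (dL (A k 0))

/-- height of a stack -/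
noncomputable def HS (b : Fin n → Brick) (A : ℕ → ℕ → OF (FA n)) (k r : ℕ) : ℝ :=
  ∑ s ∈ Finset.range r, len (b (A k s).1.i) (dD (A k s))

/-- vertical position of the lowest face of column `k` -/
noncomputable def YC (b : Fin n → Brick) (A : ℕ → ℕ → OF (FA n)) (r1 r0 : ℕ → ℕ) : ℕ → ℝ
  | 0 => 0
  | k + 1 => YC b A r1 r0 k + HS b A k (r1 k) - HS b A (k + 1) (r0 k)

/-- parent of an index -/
def par (r1 r0 : ℕ → ℕ) (v : ℕ × ℕ) : ℕ × ℕ :=
  if v.2 = ro r0 v.1 then (v.1 - 1, r1 (v.1 - 1))
  else if ro r0 v.1 < v.2 then (v.1, v.2 - 1) else (v.1, v.2 + 1)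

/-- distance of two rows -/
def rdist (a c : ℕ) : ℕ := (a - c) + (c - a)

/-- depth of the root of column `k` -/
def dep (r1 r0 : ℕ → ℕ) : ℕ → ℕ
  | 0 => 0
  | k + 1 => dep r1 r0 k + rdist (r1 k) (ro r0 k) + 1

/-- rank of an index -/
def rk (r1 r0 : ℕ → ℕ) (v : ℕ × ℕ) : ℕ := dep r1 r0 v.1 + rdist v.2 (ro r0 v.1)

theorem rk_par (r1 r0 : ℕ → ℕ) (v : ℕ × ℕ) (hv : v ≠ (0, 0)) :
    rk r1 r0 (par r1 r0 v) < rk r1 r0 v := by
  obtain ⟨k, r⟩ := v
  unfold par rk
  simp only
  split_ifs with h1 h2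
  · cases k with
    | zero =>
      exfalso
      apply hv
      simp [ro] at h1
      simp [h1]
    | succ k =>
      simp only [Nat.add_sub_cancel, dep, h1, rdist]
      omega
  · simp only [rdist]
    omega
  · simp only [rdist]
    omega

theorem HS_mono (k : ℕ) {r r' : ℕ} (h : r < r') :
    HS b A k r + len (b (A k r).1.i) (dD (A k r)) ≤ HS b A k r' := by
  have h1 : HS b A k (r + 1) = HS b A k r + len (b (A k r).1.i) (dD (A k r)) := by
    unfold HS
    rw [Finset.sum_range_succ]
  rw [← h1]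
  unfold HS
  exact Finset.sum_le_sum_of_subset_of_nonneg (Finset.range_mono h) (fun s _ _ => (len_pos _ _).le)

theorem XC_mono {k k' : ℕ} (h : k < k') :
    XC b A k + len (b (A k 0).1.i) (dL (A k 0)) ≤ XC b A k' := by
  induction k' with
  | zero => omega
  | succ m ih =>
    rcases Nat.lt_succ_iff_lt_or_eq.1 h with h1 | h1
    · have h2 := ih h1
      have h3 := len_pos (b (A m 0).1.i) (dL (A m 0))
      show _ ≤ XC b A m + len (b (A m 0).1.i) (dL (A m 0))
      linarith
    · subst h1
      exact le_rfl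

theorem ColF.width (H : ColF b K R A) {k : ℕ} (hk : k < K) :
    ∀ r < R k, dL (A k r) = dL (A k 0) ∧
      (b (A k r).1.i).lo (dL (A k 0)).1 = (b (A k 0).1.i).lo (dL (A k 0)).1 ∧
      (b (A k r).1.i).hi (dL (A k 0)).1 = (b (A k 0).1.i).hi (dL (A k 0)).1 := by
  intro r
  induction r with
  | zero => intro _; exact ⟨rfl, rfl, rfl⟩
  | succ r ih =>
    intro hr
    obtain ⟨i1, i2, i3⟩ := ih (by omega)
    obtain ⟨g1, g2, g3⟩ := glue_v b _ _ (H.stack k hk r hr)
    rw [i1] at g1 g2 g3
    exact ⟨g1.symm, g2.symm.trans i2, g3.symm.trans i3⟩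

theorem ColF.len_eq (H : ColF b K R A) {k : ℕ} (hk : k < K) {r : ℕ} (hr : r < R k) :
    len (b (A k r).1.i) (dL (A k r)) = len (b (A k 0).1.i) (dL (A k 0)) := by
  obtain ⟨h1, h2, h3⟩ := H.width hk r hr
  unfold len
  rw [h1, h2, h3]

/-- the placement of the face with index `(k, r)` -/
noncomputable def pl (b : Fin n → Brick) (A : ℕ → ℕ → OF (FA n)) (r1 r0 : ℕ → ℕ) (v : ℕ × ℕ) :
    R3 → R2 :=
  plc b (A v.1 v.2) (XC b A v.1) (YC b A r1 r0 v.1 + HS b A v.1 v.2)

theorem pl_stack (H : ColF b K R A) (r1 r0 : ℕ → ℕ) {k : ℕ} (hk : k < K) {r : ℕ}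
    (hr : r + 1 < R k) {p : R3} (hp : p ∈ sedge b (up (A k r))) :
    pl b A r1 r0 (k, r) p = pl b A r1 r0 (k, r + 1) p := by
  have hg := H.stack k hk r hr
  obtain ⟨g1, g2, g3⟩ := glue_v b _ _ hg
  have hp' : p ∈ sedge b (dwn (A k (r + 1))) := hg.1 ▸ hp
  have u1 : p.ofLp (opp (dD (A k r))).1 = (b (A k r).1.i).lev (opp (dD (A k r))) := by
    have h := hp.2.2
    rw [sdir_up] at h
    exact h
  have u2 : p.ofLp (dD (A k (r + 1))).1 = (b (A k (r + 1)).1.i).lev (dD (A k (r + 1))) := hp'.2.2
  have e1 := dfr_len (b (A k r).1.i) (dD (A k r)) (p := p) u1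
  have e2 := dfr_zero (b (A k (r + 1)).1.i) (dD (A k (r + 1))) u2
  have e3 : dfr (b (A k r).1.i) (dL (A k r)) p = dfr (b (A k (r + 1)).1.i) (dL (A k (r + 1))) p := by
    rw [← g1]
    exact dfr_congr g2 g3 p
  have e4 : HS b A k (r + 1) = HS b A k r + len (b (A k r).1.i) (dD (A k r)) := by
    unfold HS
    rw [Finset.sum_range_succ]
  unfold pl plc
  simp only
  rw [e1, e2, e3, e4]
  congr 3
  ring

theorem pl_link (H : ColF b K R A) (r1 r0 : ℕ → ℕ) {k : ℕ} (hk : k + 1 < K)
    (h1 : r1 k < R k) (h0 : r0 k < R (k + 1))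
    (hg : glueG b (rgt (A k (r1 k))) (lft (A (k + 1) (r0 k)))) {p : R3}
    (hp : p ∈ sedge b (rgt (A k (r1 k)))) :
    pl b A r1 r0 (k, r1 k) p = pl b A r1 r0 (k + 1, r0 k) p := by
  obtain ⟨g1, g2, g3⟩ := glue_h b _ _ hg
  have hp' : p ∈ sedge b (lft (A (k + 1) (r0 k))) := hg.1 ▸ hp
  have u1 : p.ofLp (opp (dL (A k (r1 k)))).1 = (b (A k (r1 k)).1.i).lev (opp (dL (A k (r1 k)))) := by
    have h := hp.2.2
    rw [sdir_rgt] at h
    exact h
  have u2 : p.ofLp (dL (A (k + 1) (r0 k))).1 =
    (b (A (k + 1) (r0 k)).1.i).lev (dL (A (k + 1) (r0 k))) := hp'.2.2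
  have e1 := dfr_len (b (A k (r1 k)).1.i) (dL (A k (r1 k))) (p := p) u1
  have e2 := dfr_zero (b (A (k + 1) (r0 k)).1.i) (dL (A (k + 1) (r0 k))) u2
  have e3 : dfr (b (A k (r1 k)).1.i) (dD (A k (r1 k))) p =
      dfr (b (A (k + 1) (r0 k)).1.i) (dD (A (k + 1) (r0 k))) p := by
    rw [← g1]
    exact dfr_congr g2 g3 p
  have e4 := H.len_eq (by omega : k < K) h1
  unfold pl plc
  simp only [XC, YC]
  rw [e1, e2, e3, e4]
  congr 2
  · ring
  · congr 1
    ring

/-- open half planes -/
theorem interior_half (s : Set R2) (i : Fin 2) (c : ℝ) (h : ∀ q ∈ s, q i ≤ c) :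
    ∀ q ∈ interior s, q i < c := by
  intro q hq
  by_contra hcon
  push Not at hcon
  have hqs := h q (interior_subset hq)
  have hqc : q i = c := le_antisymm hqs hcon
  rw [mem_interior_iff_mem_nhds] at hq
  have hcont : Continuous fun t : ℝ => q + t • EuclideanSpace.single i (1 : ℝ) := by fun_prop
  have hev : ∀ᶠ t in nhds (0 : ℝ), q + t • EuclideanSpace.single i (1 : ℝ) ∈ s := by
    have := hcont.tendsto (0 : ℝ)
    simp only [zero_smul, add_zero] at this
    exact this.eventually hq
  obtain ⟨ε, hε, hball⟩ := Metric.eventually_nhds_iff.1 hev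
  have h1 := hball (y := ε / 2) (by
    rw [Real.dist_eq, sub_zero, abs_of_pos (by linarith)]
    linarith)
  have h2 := h _ h1
  simp at h2
  rw [hqc] at h2
  linarith

theorem interior_half' (s : Set R2) (i : Fin 2) (c : ℝ) (h : ∀ q ∈ s, c ≤ q i) :
    ∀ q ∈ interior s, c < q i := by
  intro q hq
  by_contra hcon
  push Not at hcon
  have hqs := h q (interior_subset hq)
  have hqc : q i = c := le_antisymm hcon hqs
  rw [mem_interior_iff_mem_nhds] at hq
  have hcont : Continuous fun t : ℝ => q + t • EuclideanSpace.single i (1 : ℝ) := by fun_prop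
  have hev : ∀ᶠ t in nhds (0 : ℝ), q + t • EuclideanSpace.single i (1 : ℝ) ∈ s := by
    have := hcont.tendsto (0 : ℝ)
    simp only [zero_smul, add_zero] at this
    exact this.eventually hq
  obtain ⟨ε, hε, hball⟩ := Metric.eventually_nhds_iff.1 hev
  have h1 := hball (y := -(ε / 2)) (by
    rw [Real.dist_eq, sub_zero, abs_neg, abs_of_pos (by linarith)]
    linarith)
  have h2 := h _ h1
  simp at h2
  rw [hqc] at h2
  linarith

theorem disj_aux (s s' : Set R2) (i : Fin 2) (c : ℝ) (h : ∀ q ∈ s, q i ≤ c)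
    (h' : ∀ q ∈ s', c ≤ q i) : Disjoint (interior s) (interior s') := by
  rw [Set.disjoint_left]
  intro q hq hq'
  have h1 := interior_half s i c h q hq
  have h2 := interior_half' s' i c h' q hq'
  linarith

theorem pl_disj_lt (H : ColF b K R A) (r1 r0 : ℕ → ℕ) {k r k' r' : ℕ} (hk : k < K) (hr : r < R k)
    (hk' : k' < K) (hr' : r' < R k') (hlt : k < k' ∨ (k = k' ∧ r < r')) :
    Disjoint (interior (pl b A r1 r0 (k, r) '' (A k r).1.set b))
      (interior (pl b A r1 r0 (k', r') '' (A k' r').1.set b)) := by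
  rcases hlt with h | ⟨rfl, h⟩
  · refine disj_aux _ _ 0 (XC b A k + len (b (A k 0).1.i) (dL (A k 0))) ?_ ?_
    · rintro _ ⟨p, hp, rfl⟩
      have h1 := (plc_mem b (A k r) (XC b A k) (YC b A r1 r0 k + HS b A k r) hp).1.2
      rw [H.len_eq hk hr] at h1
      exact h1
    · rintro _ ⟨p, hp, rfl⟩
      have h1 := (plc_mem b (A k' r') (XC b A k') (YC b A r1 r0 k' + HS b A k' r') hp).1.1
      exact (XC_mono h).trans h1
  · refine disj_aux _ _ 1 (YC b A r1 r0 k + HS b A k r + len (b (A k r).1.i) (dD (A k r))) ?_ ?_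
    · rintro _ ⟨p, hp, rfl⟩
      exact (plc_mem b (A k r) (XC b A k) (YC b A r1 r0 k + HS b A k r) hp).2.2
    · rintro _ ⟨p, hp, rfl⟩
      have h1 := (plc_mem b (A k r') (XC b A k) (YC b A r1 r0 k + HS b A k r') hp).2.1
      have h2 := HS_mono (b := b) (A := A) k h
      refine le_trans ?_ h1
      linarith

theorem pl_disj (H : ColF b K R A) (r1 r0 : ℕ → ℕ) {v w : ℕ × ℕ} (hk : v.1 < K) (hr : v.2 < R v.1)
    (hk' : w.1 < K) (hr' : w.2 < R w.1) (hne : v ≠ w) :
    Disjoint (interior (pl b A r1 r0 v '' (A v.1 v.2).1.set b))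
      (interior (pl b A r1 r0 w '' (A w.1 w.2).1.set b)) := by
  obtain ⟨k, r⟩ := v
  obtain ⟨k', r'⟩ := w
  rcases lt_trichotomy k k' with h | h | h
  · exact pl_disj_lt H r1 r0 hk hr hk' hr' (Or.inl h)
  · subst h
    rcases lt_trichotomy r r' with h | h | h
    · exact pl_disj_lt H r1 r0 hk hr hk' hr' (Or.inr ⟨rfl, h⟩)
    · subst h
      exact absurd rfl hne
    · exact (pl_disj_lt H r1 r0 hk' hr' hk hr (Or.inr ⟨rfl, h⟩)).symm
  · exact (pl_disj_lt H r1 r0 hk' hr' hk hr (Or.inl h)).symm

theorem sedge_sub (b : Fin n → Brick) (x : FA n × Fin 4) : sedge b x ⊆ x.1.set b :=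
  fun _ hp => ⟨hp.1, hp.2.1⟩

theorem sedge_surf (b : Fin n → Brick) (x : FA n × Fin 4) (h : x.1.set b ⊆ surface b) :
    IsSurfEdge b (sedge b x) :=
  ⟨(sedge_sub b x).trans h, x.1.i, x.1.d, sdir x, (rotd_ax x.1.d x.1.g x.1.h x.2).1.symm, rfl⟩

end layout

/-- A sequence of columns which contains every face of the gridded surface exactly once gives a net. -/
theorem net_of_cols (b : Fin n → Brick) (cols : List (List (OF (FA n))))
    (hc : IsCols (glueG b) cols)
    (hnd : (cols.flatten.map (fun F => (F.1.i, F.1.d))).Nodup)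
    (hcov : ∀ i d, (i, d) ∈ cols.flatten.map (fun F => (F.1.i, F.1.d)) ↔
      (b i).face d ⊆ surface b)
    (hinj : ∀ i d j e, (b i).face d ⊆ surface b → (b j).face e ⊆ surface b →
      (b i).face d = (b j).face e → i = j ∧ d = e)
    (htwo : ∀ E F₁ F₂ F₃ : Set R3, IsSurfEdge b E → IsSurfFace b F₁ → IsSurfFace b F₂ →
      IsSurfFace b F₃ → E ⊆ F₁ → E ⊆ F₂ → E ⊆ F₃ → F₁ = F₂ ∨ F₁ = F₃ ∨ F₂ = F₃) :
    ∃ (C : Set (Set R3)) (dev : SurfFace b → R3 → R2), IsNet b C dev := by
  classical
  obtain ⟨K, R, A, H⟩ := exists_colF b cols hc hnd hcov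
  -- links
  have hlink : ∀ k, ∃ q : ℕ × ℕ, k + 1 < K → q.1 < R k ∧ q.2 < R (k + 1) ∧
      glueG b (rgt (A k q.1)) (lft (A (k + 1) q.2)) := by
    intro k
    by_cases hk : k + 1 < K
    · obtain ⟨r, hr, r', hr', hg⟩ := H.link k hk
      exact ⟨(r, r'), fun _ => ⟨hr, hr', hg⟩⟩
    · exact ⟨(0, 0), fun h => absurd h hk⟩
  choose q hq using hlink
  obtain ⟨r1, hr1⟩ : ∃ r1 : ℕ → ℕ, r1 = fun k => (q k).1 := ⟨_, rfl⟩
  obtain ⟨r0, hr0⟩ : ∃ r0 : ℕ → ℕ, r0 = fun k => (q k).2 := ⟨_, rfl⟩
  have hl : ∀ k, k + 1 < K → r1 k < R k ∧ r0 k < R (k + 1) ∧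
      glueG b (rgt (A k (r1 k))) (lft (A (k + 1) (r0 k))) := by
    intro k hk
    rw [hr1, hr0]
    exact hq k hk
  clear hr1 hr0 hq
  have hro : ∀ k < K, ro r0 k < R k := by
    intro k hk
    cases k with
    | zero => exact H.R_pos 0 hk
    | succ k => exact (hl k hk).2.1
  -- the index type
  let I := {v : ℕ × ℕ // v.1 < K ∧ v.2 < R v.1}
  have hfin : Finite I := by
    have h1 : {v : ℕ × ℕ | v.1 < K ∧ v.2 < R v.1}.Finite := by
      refine ((Finset.range K).sigma (fun k => Finset.range (R k))).finite_toSet.image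
        (fun x : (Σ _ : ℕ, ℕ) => (x.1, x.2)) |>.subset ?_
      rintro ⟨k, r⟩ ⟨hk, hr⟩
      exact ⟨⟨k, r⟩, by simpa using ⟨hk, hr⟩, rfl⟩
    exact h1.to_subtype
  let ef : I → SurfFace b := fun v => ⟨(A v.1.1 v.1.2).1.set b,
    H.surf v.1.1 v.2.1 v.1.2 v.2.2, _, _, rfl⟩
  have hef : Function.Bijective ef := by
    constructor
    · intro v w hvw
      have h1 : (A v.1.1 v.1.2).1.set b = (A w.1.1 w.1.2).1.set b := congrArg Subtype.val hvw
      obtain ⟨h2, h3⟩ := hinj _ _ _ _ (H.surf v.1.1 v.2.1 v.1.2 v.2.2)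
        (H.surf w.1.1 w.2.1 w.1.2 w.2.2) h1
      obtain ⟨h4, h5⟩ := H.inj v.1.1 v.2.1 v.1.2 v.2.2 w.1.1 w.2.1 w.1.2 w.2.2 h2 h3
      exact Subtype.ext (Prod.ext h4 h5)
    · rintro ⟨F, hF1, i, d, rfl⟩
      obtain ⟨k, hk, r, hr, h1, h2⟩ := H.cov i d hF1
      refine ⟨⟨(k, r), hk, hr⟩, Subtype.ext ?_⟩
      show (b (A k r).1.i).face (A k r).1.d = (b i).face d
      rw [h1, h2]
  let e : I ≃ SurfFace b := Equiv.ofBijective ef hef
  have hfinS : Finite (SurfFace b) := Finite.of_equiv _ e
  have he : ∀ v : I, (e v).1 = (A v.1.1 v.1.2).1.set b := fun _ => rfl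
  -- uncut edges
  let U : Set (Set R3) := {E | (∃ k < K, ∃ r, r + 1 < R k ∧ E = sedge b (up (A k r))) ∨
    ∃ k, k + 1 < K ∧ E = sedge b (rgt (A k (r1 k)))}
  let C : Set (Set R3) := {E | IsSurfEdge b E ∧ E ∉ U}
  have hUC : ∀ E, IsSurfEdge b E → E ∉ C → E ∈ U := by
    intro E hE hEC
    by_contra hU
    exact hEC ⟨hE, hU⟩
  -- pairs of faces at an uncut edge
  have hpair : ∀ (v w : I) (E : Set R3), v ≠ w → IsSurfEdge b E → E ⊆ (e v).1 → E ⊆ (e w).1 →
      ∀ F : SurfFace b, E ⊆ F.1 → F = e v ∨ F = e w := by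
    intro v w E hvw hE h1 h2 F hF
    rcases htwo E F.1 (e v).1 (e w).1 hE F.2 (e v).2 (e w).2 hF h1 h2 with h | h | h
    · exact Or.inl (Subtype.ext h)
    · exact Or.inr (Subtype.ext h)
    · exact absurd (e.injective (Subtype.ext h)) hvw
  have hstack : ∀ k (hk : k < K) r (hr : r + 1 < R k), ∀ F : SurfFace b,
      sedge b (up (A k r)) ⊆ F.1 →
      F = e ⟨(k, r), hk, Nat.lt_of_succ_lt hr⟩ ∨ F = e ⟨(k, r + 1), hk, hr⟩ := by
    intro k hk r hr F hF
    refine hpair _ _ (sedge b (up (A k r))) ?_ (sedge_surf b _ (H.surf k hk r (by omega))) ?_ ?_ F hF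
    · intro h
      have := congrArg (fun v : I => v.1.2) h
      simp at this
    · rw [he]; exact sedge_sub b _
    · rw [he, (H.stack k hk r hr).1]; exact sedge_sub b _
  have hlnk : ∀ k (hk : k + 1 < K), ∀ F : SurfFace b, sedge b (rgt (A k (r1 k))) ⊆ F.1 →
      F = e ⟨(k, r1 k), by omega, (hl k hk).1⟩ ∨ F = e ⟨(k + 1, r0 k), hk, (hl k hk).2.1⟩ := by
    intro k hk F hF
    refine hpair _ _ (sedge b (rgt (A k (r1 k)))) ?_
      (sedge_surf b _ (H.surf k (by omega) _ (hl k hk).1)) ?_ ?_ F hF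
    · intro h
      have := congrArg (fun v : I => v.1.1) h
      simp at this
    · rw [he]; exact sedge_sub b _
    · rw [he, (hl k hk).2.2.1]; exact sedge_sub b _
  -- parents
  have hpar : ∀ v : I, v.1 ≠ (0, 0) → (par r1 r0 v.1).1 < K ∧ (par r1 r0 v.1).2 < R (par r1 r0 v.1).1 := by
    rintro ⟨⟨k, r⟩, hk, hr⟩ hv
    simp only at hk hr hv
    unfold par
    simp only
    split_ifs with h1 h2
    · cases k with
      | zero =>
        exfalso
        apply hv
        simp [ro] at h1
        simp [h1]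
      | succ k =>
        simp only [Nat.add_sub_cancel]
        exact ⟨by omega, (hl k hk).1⟩
    · exact ⟨hk, by simp only; omega⟩
    · have := hro k hk
      exact ⟨hk, by simp only; omega⟩
  let rt : I := ⟨(0, 0), H.K_pos, H.R_pos 0 H.K_pos⟩
  let pI : I → I := fun v => if h : v.1 ≠ (0, 0) then ⟨par r1 r0 v.1, hpar v h⟩ else rt
  have hne : ∀ v : I, v ≠ rt → v.1 ≠ (0, 0) := fun v hv h => hv (Subtype.ext h)
  have hpI : ∀ v : I, v ≠ rt → (pI v).1 = par r1 r0 v.1 := by
    intro v hv
    simp only [pI]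
    rw [dif_pos (hne v hv)]
  have hpe : ∀ v w : I, v ≠ rt → w.1 = par r1 r0 v.1 → pI v = w := by
    intro v w hv h
    exact Subtype.ext ((hpI v hv).trans h.symm)
  have hadjI : ∀ v w : I, (dual b C).Adj (e v) (e w) ↔ (v ≠ rt ∧ pI v = w) ∨ (w ≠ rt ∧ pI w = v) := by
    intro v w
    constructor
    · rintro ⟨hvw, E, hE, hEC, h1, h2⟩
      have hvw' : v ≠ w := fun h => hvw (by rw [h])
      rcases hUC E hE hEC with ⟨k, hk, r, hr, rfl⟩ | ⟨k, hk, rfl⟩
      · have key : ∀ x y : I, x.1 = (k, r) → y.1 = (k, r + 1) →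
            (x ≠ rt ∧ pI x = y) ∨ (y ≠ rt ∧ pI y = x) := by
          intro x y hx hy
          rcases lt_or_ge r (ro r0 k) with hlt | hge
          · left
            have hxr : x ≠ rt := by
              intro h
              have h3 : x.1 = (0, 0) := by rw [h]
              rw [hx] at h3
              simp only [Prod.mk.injEq] at h3
              rw [h3.1] at hlt
              simp [ro] at hlt
            refine ⟨hxr, hpe x y hxr ?_⟩
            rw [hx, hy]
            unfold par
            simp only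
            rw [if_neg (by omega), if_neg (by omega)]
          · right
            have hyr : y ≠ rt := by
              intro h
              have h3 : y.1 = (0, 0) := by rw [h]
              rw [hy] at h3
              simp at h3
            refine ⟨hyr, hpe y x hyr ?_⟩
            rw [hx, hy]
            unfold par
            simp only
            rw [if_neg (by omega), if_pos (by omega)]
            simp
        rcases hstack k hk r hr (e v) h1 with hv | hv <;>
          rcases hstack k hk r hr (e w) h2 with hw | hw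
        · exact absurd (hv.trans hw.symm) hvw
        · exact key v w (congrArg Subtype.val (e.injective hv)) (congrArg Subtype.val (e.injective hw))
        · exact (key w v (congrArg Subtype.val (e.injective hw)) (congrArg Subtype.val (e.injective hv))).symm
        · exact absurd (hv.trans hw.symm) hvw
      · have key : ∀ x y : I, x.1 = (k, r1 k) → y.1 = (k + 1, r0 k) →
            (x ≠ rt ∧ pI x = y) ∨ (y ≠ rt ∧ pI y = x) := by
          intro x y hx hy
          right
          have hyr : y ≠ rt := by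
            intro h
            have h3 : y.1 = (0, 0) := by rw [h]
            rw [hy] at h3
            simp at h3
          refine ⟨hyr, hpe y x hyr ?_⟩
          rw [hx, hy]
          unfold par
          simp only
          rw [if_pos (by simp [ro])]
          simp
        rcases hlnk k hk (e v) h1 with hv | hv <;>
          rcases hlnk k hk (e w) h2 with hw | hw
        · exact absurd (hv.trans hw.symm) hvw
        · exact key v w (congrArg Subtype.val (e.injective hv)) (congrArg Subtype.val (e.injective hw))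
        · exact (key w v (congrArg Subtype.val (e.injective hw)) (congrArg Subtype.val (e.injective hv))).symm
        · exact absurd (hv.trans hw.symm) hvw
    · have key : ∀ x y : I, x ≠ rt → pI x = y → (dual b C).Adj (e x) (e y) := by
        intro x y hx hxy
        have hxy' : y.1 = par r1 r0 x.1 := by rw [← hxy]; exact hpI x hx
        have hx0 := hne x hx
        have hrk := rk_par r1 r0 x.1 hx0
        refine ⟨fun h => ?_, ?_⟩
        · have h3 := e.injective h
          rw [← hxy', ← h3] at hrk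
          exact lt_irrefl _ hrk
        obtain ⟨⟨k, r⟩, hk, hr⟩ := x
        obtain ⟨⟨k', r'⟩, hk', hr'⟩ := y
        simp only at hk hr hk' hr' hxy' hx0
        unfold par at hxy'
        simp only at hxy'
        split_ifs at hxy' with h1 h2
        · cases k with
          | zero =>
            exfalso
            apply hx0
            simp [ro] at h1
            simp [h1]
          | succ k =>
            simp only [Nat.add_sub_cancel, Prod.mk.injEq] at hxy'
            obtain ⟨rfl, rfl⟩ := hxy'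
            simp only [ro] at h1
            subst h1
            have hs : IsSurfEdge b (sedge b (rgt (A k' (r1 k')))) :=
              sedge_surf b _ (H.surf k' hk' _ hr')
            refine ⟨sedge b (rgt (A k' (r1 k'))), hs, fun hC => hC.2 (Or.inr ⟨k', hk, rfl⟩), ?_, ?_⟩
            · rw [he, (hl k' hk).2.2.1]; exact sedge_sub b _
            · rw [he]; exact sedge_sub b _
        · simp only [Prod.mk.injEq] at hxy'
          obtain ⟨rfl, rfl⟩ := hxy'
          obtain ⟨m, rfl⟩ : ∃ m, r = m + 1 := ⟨r - 1, by omega⟩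
          simp only [Nat.add_sub_cancel] at hr' ⊢
          have hs : IsSurfEdge b (sedge b (up (A k' m))) := sedge_surf b _ (H.surf k' hk' _ hr')
          refine ⟨sedge b (up (A k' m)), hs, fun hC => hC.2 (Or.inl ⟨k', hk, m, hr, rfl⟩), ?_, ?_⟩
          · rw [he, (H.stack k' hk m hr).1]; exact sedge_sub b _
          · rw [he]; exact sedge_sub b _
        · simp only [Prod.mk.injEq] at hxy'
          obtain ⟨rfl, rfl⟩ := hxy'
          have hs : IsSurfEdge b (sedge b (up (A k' r))) := sedge_surf b _ (H.surf k' hk' _ hr)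
          refine ⟨sedge b (up (A k' r)), hs, fun hC => hC.2 (Or.inl ⟨k', hk, r, hr', rfl⟩), ?_, ?_⟩
          · rw [he]; exact sedge_sub b _
          · rw [he, (H.stack k' hk r hr').1]; exact sedge_sub b _
      rintro (⟨h1, h2⟩ | ⟨h1, h2⟩)
      · exact key v w h1 h2
      · exact (key w v h1 h2).symm
  refine ⟨C, fun F => pl b A r1 r0 (e.symm F).1, ?_⟩
  constructor
  · intro E hE
    exact hE.1
  · refine isTree_of_parent (dual b C) (e rt) (fun F => e (pI (e.symm F)))
      (fun F => rk r1 r0 (e.symm F).1) ?_ ?_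
    · intro F hF
      have h1 : e.symm F ≠ rt := fun h => hF (by rw [← h, e.apply_symm_apply])
      simp only [e.symm_apply_apply]
      rw [hpI _ h1]
      exact rk_par r1 r0 _ (hne _ h1)
    · intro F G
      have h := hadjI (e.symm F) (e.symm G)
      rw [e.apply_symm_apply, e.apply_symm_apply] at h
      rw [h]
      have hF : e.symm F ≠ rt ↔ F ≠ e rt := by rw [Ne, Equiv.symm_apply_eq]
      have hG : e.symm G ≠ rt ↔ G ≠ e rt := by rw [Ne, Equiv.symm_apply_eq]
      rw [hF, hG, ← Equiv.apply_eq_iff_eq_symm_apply, ← Equiv.apply_eq_iff_eq_symm_apply]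
  · intro F p hp q hq
    have h1 : F.1 = (A (e.symm F).1.1 (e.symm F).1.2).1.set b := by
      rw [← he, e.apply_symm_apply]
    rw [h1] at hp hq
    exact plc_isom b _ _ _ hp hq
  · intro F G E hE hEC h1 h2 p hp
    rcases hUC E hE hEC with ⟨k, hk, r, hr, rfl⟩ | ⟨k, hk, rfl⟩
    · have hs := pl_stack H r1 r0 hk hr hp
      rcases hstack k hk r hr F h1 with rfl | rfl <;>
        rcases hstack k hk r hr G h2 with rfl | rfl <;>
        simp only [e.symm_apply_apply]
      · exact hs
      · exact hs.symm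
    · have hs := pl_link H r1 r0 hk (hl k hk).1 (hl k hk).2.1 (hl k hk).2.2 hp
      rcases hlnk k hk F h1 with rfl | rfl <;>
        rcases hlnk k hk G h2 with rfl | rfl <;>
        simp only [e.symm_apply_apply]
      · exact hs
      · exact hs.symm
  · intro F G hFG
    have h1 : F.1 = (A (e.symm F).1.1 (e.symm F).1.2).1.set b := by
      rw [← he, e.apply_symm_apply]
    have h2 : G.1 = (A (e.symm G).1.1 (e.symm G).1.2).1.set b := by
      rw [← he, e.apply_symm_apply]
    rw [h1, h2]
    exact pl_disj H r1 r0 (e.symm F).2.1 (e.symm F).2.2 (e.symm G).2.1 (e.symm G).2.2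
      (fun h => hFG (e.symm.injective (Subtype.ext h)))

end Pool.Agent.OTree
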