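import Pool.Agent.OTree.GeoLoc

/-!
# From an orthotree to an `Obj` (module GeoRec)

Statement to prove: `exists_obj`.

Plan.  For a brick `j`, perpendicular directions `d`, `e` and a side `x` of a face say
`AtEdge b x j d e` if `sedge b x = (b j).edge d e` and `sdir (x.1, x.2 + 1) = cr d e`.
If `AtEdge b x j d e` and `AtEdge b y j e d` then `glueG b x y`.

Claim (induction on the number of vertices of the component of `T` minus the edge `i c` which
contains `c`, or on any other well founded order on directed edges of the tree): if `c` is the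
neighbour of `i` in direction `d` and `g ⟂ d` then there are `s`, `cap`, `M`, `p` with
`IsObj (glueG b) (.brick cap s) M p`, `Valid`, `AtEdge b (p k) i d (rotd d g k)` for all `k`, the
`(i, d)` of the members of `M` are exactly the surface faces of the bricks of the component (each
once), and `(s k).isB` iff `c` has a neighbour in direction `rotd d g k`, `cap.isB` iff `c` has a
neighbour in direction `d`.

Step: write `e_k = rotd d g k`.  The cap is the object of `c` in direction `d` with numbering `g`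
(the face `(c, d, g)` if there is no neighbour, else by induction); the side `k` is the object of `c`
in direction `e_k` with numbering `opp d`.  Then `rotd e_k (opp d)` is `opp d, e_{k+1}, d, e_{k-1}`.
The gluing conditions follow from `AtEdge`, the boundary ports are `AtEdge b (ps k 0) c e_k (opp d)`,
which is `AtEdge b (ps k 0) i d e_k` by `nb_edge` and `cr e_k (opp d) = cr d e_k`.
`Valid` follows from `nb_nosquare`.

Root: `n = 1`: the brick alone, cap = face.  `n ≥ 2`: let `r` be a leaf of `T`, with neighbour in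
direction `d`; the same step with `c = r`, `i` absent; the sides are faces; `φ = (r, opp d, g)`;
`rotd (opp d) g (-k) = rotd d g k`.
-/

namespace Pool.Agent.OTree

variable {n : ℕ} {b : Fin n → Brick} {T : SimpleGraph (Fin n)}

/-! ### directions -/

theorem gr_rotd_perp : ∀ d g : Dir, g.1 ≠ d.1 → ∀ k : Fin 4, (rotd d g k).1 ≠ d.1 := by decide

theorem gr_rotd_succ : ∀ d g : Dir, g.1 ≠ d.1 → ∀ k : Fin 4,
    rotd d g (k + 1) = cr d (rotd d g k) := by decide

theorem gr_rotd_three : ∀ d g : Dir, g.1 ≠ d.1 → ∀ k : Fin 4,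
    rotd d g (k + 3) = opp (rotd d g (k + 1)) := by decide

theorem gr_side0 : ∀ d g : Dir, g.1 ≠ d.1 → ∀ k : Fin 4,
    rotd (rotd d g k) (opp d) 0 = opp d := by decide

theorem gr_side1 : ∀ d g : Dir, g.1 ≠ d.1 → ∀ k : Fin 4,
    rotd (rotd d g k) (opp d) 1 = rotd d g (k + 1) := by decide

theorem gr_side2 : ∀ d g : Dir, g.1 ≠ d.1 → ∀ k : Fin 4,
    rotd (rotd d g k) (opp d) 2 = d := by decide

theorem gr_side3 : ∀ d g : Dir, g.1 ≠ d.1 → ∀ k : Fin 4,
    rotd (rotd d g (k + 1)) (opp d) 3 = rotd d g k := by decide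

theorem gr_cr_swap : ∀ d e : Dir, d.1 ≠ e.1 → cr e d = opp (cr d e) := by decide

theorem gr_opp_opp : ∀ d : Dir, opp (opp d) = d := by decide

theorem gr_cr_opp : ∀ d e : Dir, d.1 ≠ e.1 → cr e (opp d) = cr d e := by decide

theorem gr_opp_ne : ∀ d : Dir, opp d ≠ d := by decide

theorem gr_rotd_ne : ∀ d g : Dir, g.1 ≠ d.1 → ∀ k : Fin 4,
    rotd d g k ≠ d ∧ rotd d g k ≠ opp d := by decide

theorem gr_exhaust : ∀ d g : Dir, g.1 ≠ d.1 → ∀ e : Dir,
    e = d ∨ e = opp d ∨ ∃ k : Fin 4, e = rotd d g k := by decide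

theorem gr_rotd_inj : ∀ d g : Dir, g.1 ≠ d.1 → ∀ k l : Fin 4,
    rotd d g k = rotd d g l → k = l := by decide

theorem gr_rotd_neg : ∀ d g : Dir, g.1 ≠ d.1 → ∀ k : Fin 4,
    rotd (opp d) g (-k) = rotd d g k := by decide

theorem gr_exists_perp : ∀ d : Dir, ∃ g : Dir, g.1 ≠ d.1 := by decide

theorem gr_edge_comm (B : Brick) (d e : Dir) : B.edge d e = B.edge e d := by
  ext p
  simp only [Brick.edge, Set.mem_ofPred_eq]
  tauto

/-- the side `x` is at the edge of the brick `j` between `d` and `e`, seen from the face `d` -/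
def AtEdge (b : Fin n → Brick) (x : FA n × Fin 4) (j : Fin n) (d e : Dir) : Prop :=
  sedge b x = (b j).edge d e ∧ sdir (x.1, x.2 + 1) = cr d e

theorem gr_glue {x y : FA n × Fin 4} {j : Fin n} {d e : Dir} (hde : d.1 ≠ e.1)
    (hx : AtEdge b x j d e) (hy : AtEdge b y j e d) : glueG b x y := by
  refine ⟨?_, ?_⟩
  · rw [hx.1, hy.1, gr_edge_comm]
  · have h3 : sdir (y.1, y.2 + 3) = opp (sdir (y.1, y.2 + 1)) :=
      gr_rotd_three y.1.d y.1.g y.1.h y.2
    rw [hx.2, h3, hy.2, gr_cr_swap d e hde, gr_opp_opp]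

theorem gr_face_port (b : Fin n → Brick) (F : FA n) (k : Fin 4) :
    AtEdge b (F, k) F.i F.d (rotd F.d F.g k) :=
  ⟨rfl, gr_rotd_succ F.d F.g F.h k⟩

/-! ### branches of the tree -/

/-- the component of `c` after removing `i` -/
def Br (T : SimpleGraph (Fin n)) (i c : Fin n) : Set (Fin n) :=
  {v | ∃ p : T.Walk c v, i ∉ p.support}

theorem gr_through (hT : T.IsAcyclic) {a c e : Fin n} (h1 : T.Adj a c) (h2 : T.Adj c e)
    (hae : a ≠ e) (w : T.Walk a e) : c ∈ w.support := by
  classical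
  have hp : (SimpleGraph.Walk.cons h1 (SimpleGraph.Walk.cons h2 SimpleGraph.Walk.nil)).IsPath := by
    rw [SimpleGraph.Walk.cons_isPath_iff, SimpleGraph.Walk.cons_isPath_iff]
    refine ⟨⟨SimpleGraph.Walk.IsPath.nil, ?_⟩, ?_⟩
    · simp only [SimpleGraph.Walk.support_nil, List.mem_singleton]
      exact h2.ne
    · simp only [SimpleGraph.Walk.support_cons, SimpleGraph.Walk.support_nil, List.mem_cons,
        List.not_mem_nil, or_false, not_or]
      exact ⟨h1.ne, hae⟩
  have hss := hT.subsingleton_path a e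
  have huniq := hss.elim w.toPath ⟨_, hp⟩
  have hc : c ∈ (w.toPath : T.Walk a e).support := by
    rw [huniq]
    simp
  exact SimpleGraph.Walk.support_toPath_subset_support w hc

theorem gr_self_mem {i c : Fin n} (h : i ≠ c) : c ∈ Br T i c :=
  ⟨SimpleGraph.Walk.nil, by simpa using h⟩

theorem gr_not_mem (i c : Fin n) : i ∉ Br T i c := by
  rintro ⟨p, hp⟩
  exact hp p.end_mem_support

theorem gr_br_sub (hT : T.IsAcyclic) {i c c' : Fin n} (h1 : T.Adj i c) (h2 : T.Adj c c')
    (hne : c' ≠ i) : Br T c c' ⊆ Br T i c := by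
  classical
  rintro v ⟨p, hp⟩
  refine ⟨SimpleGraph.Walk.cons h2 p, ?_⟩
  rw [SimpleGraph.Walk.support_cons, List.mem_cons, not_or]
  refine ⟨h1.ne, fun hi => ?_⟩
  have h := gr_through hT h2.symm h1.symm hne (p.takeUntil i hi)
  exact hp (SimpleGraph.Walk.support_takeUntil_subset_support p hi h)

theorem gr_br_disj (hT : T.IsAcyclic) {c c' c'' v : Fin n} (h1 : T.Adj c c') (h2 : T.Adj c c'')
    (hv1 : v ∈ Br T c c') (hv2 : v ∈ Br T c c'') : c' = c'' := by
  by_contra hne
  obtain ⟨p, hp⟩ := hv1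
  obtain ⟨q, hq⟩ := hv2
  have h := gr_through hT h1.symm h2 hne (p.append q.reverse)
  rw [SimpleGraph.Walk.mem_support_append_iff] at h
  rcases h with h | h
  · exact hp h
  · rw [SimpleGraph.Walk.support_reverse, List.mem_reverse] at h
    exact hq h

theorem gr_first {c v : Fin n} (hne : v ≠ c) (w : T.Walk c v) :
    ∃ c', T.Adj c c' ∧ c' ∈ w.support ∧ v ∈ Br T c c' := by
  classical
  have hsub := SimpleGraph.Walk.support_toPath_subset_support w
  generalize w.toPath = P at hsub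
  obtain ⟨q, hq⟩ := P
  cases q with
  | nil => exact absurd rfl hne
  | cons h q' =>
    rw [SimpleGraph.Walk.cons_isPath_iff] at hq
    refine ⟨_, h, hsub ?_, q', hq.2⟩
    rw [SimpleGraph.Walk.support_cons]
    exact List.mem_cons_of_mem _ q'.start_mem_support

theorem gr_br_step {i c v : Fin n} (hv : v ∈ Br T i c) (hne : v ≠ c) :
    ∃ c', T.Adj c c' ∧ c' ≠ i ∧ v ∈ Br T c c' := by
  obtain ⟨w, hw⟩ := hv
  obtain ⟨c', h1, h2, h3⟩ := gr_first hne w
  exact ⟨c', h1, fun h => hw (h ▸ h2), h3⟩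

theorem gr_br_card (hT : T.IsAcyclic) {i c c' : Fin n} (h1 : T.Adj i c) (h2 : T.Adj c c')
    (hne : c' ≠ i) : (Br T c c').ncard < (Br T i c).ncard := by
  refine Set.ncard_lt_ncard ?_ (Set.toFinite _)
  refine ⟨gr_br_sub hT h1 h2 hne, fun h => ?_⟩
  exact gr_not_mem c c' (h (gr_self_mem h1.ne))

/-! ### the faces of a branch -/

/-- no neighbour there -/
def Free (b : Fin n → Brick) (T : SimpleGraph (Fin n)) (q : Fin n × Dir) : Prop :=
  ∀ l, ¬ Nb b T q.1 q.2 l

/-- the free faces seen through the face `(i, d)` -/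
def SubF (b : Fin n → Brick) (T : SimpleGraph (Fin n)) (i : Fin n) (d : Dir) (q : Fin n × Dir) :
    Prop :=
  Free b T q ∧ (q = (i, d) ∨ ∃ c, Nb b T i d c ∧ q.1 ∈ Br T i c)

theorem gr_subF_disj (h : IsOrthotree b T) {c : Fin n} {e e' : Dir} {q : Fin n × Dir}
    (h1 : SubF b T c e q) (h2 : SubF b T c e' q) : e = e' := by
  rcases h1.2 with h1 | ⟨c1, h1, h1'⟩
  · rcases h2.2 with h2 | ⟨c2, h2, h2'⟩
    · rw [h1] at h2
      exact (Prod.mk.injEq _ _ _ _ ▸ h2).2
    · rw [h1] at h2'
      exact absurd h2' (gr_not_mem _ _)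
  · rcases h2.2 with h2 | ⟨c2, h2, h2'⟩
    · rw [h2] at h1'
      exact absurd h1' (gr_not_mem _ _)
    · have := gr_br_disj h.tree.isAcyclic h1.1 h2.1 h1' h2'
      subst this
      exact nb_dir_unique h h1 h2

theorem gr_nodup_five {α : Type} (A : Multiset α) (B : Fin 4 → Multiset α) (hA : A.Nodup)
    (hB : ∀ k, (B k).Nodup) (hAB : ∀ k, ∀ q, q ∈ A → q ∉ B k)
    (hBB : ∀ k l, k ≠ l → ∀ q, q ∈ B k → q ∉ B l) : (A + ∑ k, B k).Nodup := by
  have d1 : ∀ k l, k ≠ l → Disjoint (B k) (B l) := fun k l hkl =>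
    Multiset.disjoint_left.mpr fun {q} hq => hBB k l hkl q hq
  have d2 : ∀ k, Disjoint A (B k) := fun k => Multiset.disjoint_left.mpr fun {q} hq => hAB k q hq
  rw [Fin.sum_univ_four, Multiset.nodup_add, Multiset.nodup_add, Multiset.nodup_add,
    Multiset.nodup_add]
  simp only [Multiset.disjoint_add_left, Multiset.disjoint_add_right]
  exact ⟨hA, ⟨⟨⟨hB 0, hB 1, d1 _ _ (by decide)⟩, hB 2, d1 _ _ (by decide), d1 _ _ (by decide)⟩, hB 3,
    ⟨d1 _ _ (by decide), d1 _ _ (by decide)⟩, d1 _ _ (by decide)⟩, ⟨⟨d2 0, d2 1⟩, d2 2⟩, d2 3⟩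

/-- the statement of the induction -/
def Claim (b : Fin n → Brick) (T : SimpleGraph (Fin n)) (i : Fin n) (d : Dir) : Prop :=
  ∀ g : Dir, g.1 ≠ d.1 → ∃ (o : Obj) (M : Multiset (FA n)) (p : Fin 4 → FA n × Fin 4),
    IsObj (glueG b) o M p ∧ o.Valid ∧ (∀ k, AtEdge b (p k) i d (rotd d g k)) ∧
    (M.map (fun F => (F.i, F.d))).Nodup ∧
    (∀ q, q ∈ M.map (fun F => (F.i, F.d)) ↔ SubF b T i d q) ∧
    (o.isB = true → ∃ c, Nb b T i d c) ∧
    (∀ k, (o.sd k).isB = true → ∃ c l, Nb b T i d c ∧ Nb b T c (rotd d g k) l)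

theorem gr_claim_face (i : Fin n) (d : Dir) (hfree : ∀ c, ¬ Nb b T i d c) : Claim b T i d := by
  intro g hg
  refine ⟨.face, {⟨i, d, g, hg⟩}, fun k => (⟨i, d, g, hg⟩, k), IsObj.face _, trivial, ?_, ?_, ?_, ?_,
    ?_⟩
  · intro k
    exact gr_face_port b ⟨i, d, g, hg⟩ k
  · simp
  · intro q
    simp only [Multiset.map_singleton, Multiset.mem_singleton]
    constructor
    · rintro rfl
      exact ⟨hfree, Or.inl rfl⟩
    · rintro ⟨-, h | ⟨c, hc, -⟩⟩
      · exact h
      · exact absurd hc (hfree c)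
  · intro h
    simp [Obj.isB] at h
  · intro k h
    simp [Obj.sd, Obj.isB] at h

theorem gr_mem_map_add {Mc : Multiset (FA n)} {Ms : Fin 4 → Multiset (FA n)}
    (q : Fin n × Dir) :
    q ∈ (Mc + ∑ k, Ms k).map (fun F => (F.i, F.d)) ↔
      q ∈ Mc.map (fun F => (F.i, F.d)) ∨ ∃ k, q ∈ (Ms k).map (fun F => (F.i, F.d)) := by
  rw [Multiset.map_add, Multiset.mem_add]
  refine or_congr Iff.rfl ?_
  simp only [Multiset.mem_map, Multiset.mem_sum, Finset.mem_univ, true_and]
  constructor
  · rintro ⟨a, ⟨k, hk⟩, ha⟩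
    exact ⟨k, a, hk, ha⟩
  · rintro ⟨k, a, hk, ha⟩
    exact ⟨a, ⟨k, hk⟩, ha⟩

theorem gr_map_add {Mc : Multiset (FA n)} {Ms : Fin 4 → Multiset (FA n)} :
    (Mc + ∑ k, Ms k).map (fun F => (F.i, F.d)) =
      Mc.map (fun F => (F.i, F.d)) + ∑ k, (Ms k).map (fun F => (F.i, F.d)) := by
  rw [Multiset.map_add]
  congr 1
  simp only [Fin.sum_univ_four, Multiset.map_add]

theorem gr_claim_brick (h : IsOrthotree b T) {i c : Fin n} {d : Dir} (hic : Nb b T i d c)
    (IH : ∀ e : Dir, e ≠ opp d → Claim b T c e) : Claim b T i d := by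
  intro g hg
  have hci : Nb b T c (opp d) i := nb_symm h hic
  have hac := h.tree.isAcyclic
  obtain ⟨oc, Mc, pc, c1, c2, c3, c4, c5, c6, c7⟩ := IH d (gr_opp_ne d).symm g hg
  have hperp : ∀ k, (opp d).1 ≠ (rotd d g k).1 := fun k => (gr_rotd_perp d g hg k).symm
  choose os Ms ps s1 s2 s3 s4 s5 s6 s7 using fun k : Fin 4 =>
    IH (rotd d g k) (gr_rotd_ne d g hg k).2 (opp d) (hperp k)
  refine ⟨.brick oc os, Mc + ∑ k, Ms k, fun k => ps k 0, ?_, ?_, ?_, ?_, ?_, ?_, ?_⟩
  · refine IsObj.brick c1 s1 ?_ ?_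
    · intro k
      refine gr_glue (j := c) (d := d) (e := rotd d g k) (gr_rotd_perp d g hg k).symm (c3 k) ?_
      have := s3 k 2
      rwa [gr_side2 d g hg k] at this
    · intro k
      have e1 := s3 k 1
      rw [gr_side1 d g hg k] at e1
      have e2 := s3 (k + 1) 3
      rw [gr_side3 d g hg k] at e2
      refine gr_glue (j := c) ?_ e1 e2
      have : ∀ d g : Dir, g.1 ≠ d.1 → ∀ k : Fin 4, (rotd d g k).1 ≠ (rotd d g (k + 1)).1 := by
        decide
      exact this d g hg k
  · refine ⟨c2, s2, ?_⟩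
    intro k hk
    obtain ⟨j, hj⟩ := s6 k hk
    have hkp := gr_rotd_perp d g hg k
    refine ⟨?_, ?_, ?_⟩
    · by_contra hcon
      rw [Bool.not_eq_false] at hcon
      obtain ⟨c', l, hc', hl⟩ := s7 k 0 hcon
      rw [gr_side0 d g hg k] at hl
      exact nb_nosquare h (hperp k).symm hc' hci hl
    · intro hcap
      obtain ⟨m, hm⟩ := c6 hcap
      refine ⟨?_, ?_⟩
      · by_contra hcon
        rw [Bool.not_eq_false] at hcon
        obtain ⟨c', l, hc', hl⟩ := c7 k hcon
        exact nb_nosquare h hkp.symm hc' hj hl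
      · by_contra hcon
        rw [Bool.not_eq_false] at hcon
        obtain ⟨c', l, hc', hl⟩ := s7 k 2 hcon
        rw [gr_side2 d g hg k] at hl
        exact nb_nosquare h hkp hc' hm hl
    · intro hk1
      obtain ⟨m, hm⟩ := s6 (k + 1) hk1
      have hpp : (rotd d g k).1 ≠ (rotd d g (k + 1)).1 := by
        have : ∀ d g : Dir, g.1 ≠ d.1 → ∀ k : Fin 4, (rotd d g k).1 ≠ (rotd d g (k + 1)).1 := by
          decide
        exact this d g hg k
      refine ⟨?_, ?_⟩
      · by_contra hcon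
        rw [Bool.not_eq_false] at hcon
        obtain ⟨c', l, hc', hl⟩ := s7 k 1 hcon
        rw [gr_side1 d g hg k] at hl
        exact nb_nosquare h hpp hc' hm hl
      · by_contra hcon
        rw [Bool.not_eq_false] at hcon
        obtain ⟨c', l, hc', hl⟩ := s7 (k + 1) 3 hcon
        rw [gr_side3 d g hg k] at hl
        exact nb_nosquare h hpp.symm hc' hj hl
  · intro k
    have e0 := s3 k 0
    rw [gr_side0 d g hg k] at e0
    have hkp := gr_rotd_perp d g hg k
    refine ⟨?_, ?_⟩
    · rw [e0.1, gr_edge_comm, nb_edge h hic hkp]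
    · rw [e0.2, gr_cr_opp d _ hkp.symm]
  · rw [gr_map_add]
    refine gr_nodup_five _ _ c4 s4 ?_ ?_
    · intro k q hq hq'
      rw [c5] at hq
      rw [s5] at hq'
      exact (gr_rotd_ne d g hg k).1 (gr_subF_disj h hq' hq)
    · intro k l hkl q hq hq'
      rw [s5] at hq hq'
      exact hkl (gr_rotd_inj d g hg k l (gr_subF_disj h hq hq'))
  · intro q
    rw [gr_mem_map_add, c5]
    simp only [s5]
    have key : (SubF b T c d q ∨ ∃ k, SubF b T c (rotd d g k) q) ↔
        ∃ e, e ≠ opp d ∧ SubF b T c e q := by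
      constructor
      · rintro (hq | ⟨k, hq⟩)
        · exact ⟨d, (gr_opp_ne d).symm, hq⟩
        · exact ⟨_, (gr_rotd_ne d g hg k).2, hq⟩
      · rintro ⟨e, he, hq⟩
        rcases gr_exhaust d g hg e with rfl | rfl | ⟨k, rfl⟩
        · exact Or.inl hq
        · exact absurd rfl he
        · exact Or.inr ⟨k, hq⟩
    rw [key]
    constructor
    · rintro ⟨e, he, hf, hq⟩
      refine ⟨hf, Or.inr ⟨c, hic, ?_⟩⟩
      rcases hq with rfl | ⟨c', hc', hq⟩
      · exact gr_self_mem hic.1.ne
      · refine gr_br_sub hac hic.1 hc'.1 ?_ hq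
        rintro rfl
        exact he (nb_dir_unique h hc' hci)
    · rintro ⟨hf, hq⟩
      rcases hq with rfl | ⟨c'', hc'', hq⟩
      · exact absurd hic (hf c)
      · have := nb_unique h hc'' hic
        subst this
        by_cases hqc : q.1 = c''
        · refine ⟨q.2, ?_, hf, Or.inl ?_⟩
          · intro hopp
            refine hf i ?_
            rw [hqc, hopp]
            exact hci
          · rw [← hqc]
        · obtain ⟨c', h1, h2, h3⟩ := gr_br_step hq hqc
          obtain ⟨e, he⟩ := exists_nb h h1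
          refine ⟨e, ?_, hf, Or.inr ⟨c', he, h3⟩⟩
          rintro rfl
          exact h2 (nb_unique h he hci)
  · intro _
    exact ⟨c, hic⟩
  · intro k hk
    obtain ⟨l, hl⟩ := s6 k hk
    exact ⟨c, l, hic, hl⟩

theorem gr_claim (h : IsOrthotree b T) : ∀ (m : ℕ) (i : Fin n) (d : Dir),
    (∀ c, Nb b T i d c → (Br T i c).ncard ≤ m) → Claim b T i d := by
  intro m
  induction m with
  | zero =>
    intro i d hm
    refine gr_claim_face i d fun c hc => ?_
    have h0 := hm c hc
    have h1 : 0 < (Br T i c).ncard :=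
      (Set.ncard_pos (Set.toFinite _)).mpr ⟨c, gr_self_mem hc.1.ne⟩
    omega
  | succ m ih =>
    intro i d hm
    by_cases hex : ∃ c, Nb b T i d c
    · obtain ⟨c, hc⟩ := hex
      refine gr_claim_brick h hc fun e he => ih c e fun c' hc' => ?_
      have hne : c' ≠ i := by
        rintro rfl
        exact he (nb_dir_unique h hc' (nb_symm h hc))
      have h1 := gr_br_card h.tree.isAcyclic hc.1 hc'.1 hne
      have h2 := hm c hc
      omega
    · push Not at hex
      exact gr_claim_face i d hex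

theorem gr_claim_all (h : IsOrthotree b T) (i : Fin n) (d : Dir) : Claim b T i d :=
  gr_claim h n i d fun c _ => by
    have := Set.ncard_le_ncard (Set.subset_univ (Br T i c)) (Set.toFinite _)
    rwa [Set.ncard_univ, Nat.card_eq_fintype_card, Fintype.card_fin] at this

/-- a brick with at most one neighbour -/
theorem gr_leaf (h : IsOrthotree b T) :
    ∃ (r : Fin n) (d : Dir), ∀ e l, Nb b T r e l → e = d := by
  classical
  have hne0 : Nonempty (Fin n) := h.tree.1.nonempty
  by_cases hex : ∃ i c, T.Adj i c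
  · have hne : ∃ m : ℕ, ∃ i c, T.Adj i c ∧ (Br T i c).ncard = m := by
      obtain ⟨i, c, hic⟩ := hex
      exact ⟨_, i, c, hic, rfl⟩
    obtain ⟨i, c, hic, hm⟩ := Nat.find_spec hne
    obtain ⟨d, hd⟩ := exists_nb h hic.symm
    refine ⟨c, d, fun e l hl => ?_⟩
    by_cases hli : l = i
    · subst hli
      exact nb_dir_unique h hl hd
    · exfalso
      have h1 := gr_br_card h.tree.isAcyclic hic hl.1 hli
      have h2 := Nat.find_min hne (m := (Br T c l).ncard) (by rw [← hm]; exact h1)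
      exact h2 ⟨c, l, hl.1, rfl⟩
  · push Not at hex
    exact ⟨Classical.arbitrary _, (0, true), fun e l hl => absurd hl.1 (hex _ _)⟩

theorem exists_obj (h : IsOrthotree b T) :
    ∃ (cap : Obj) (M : Multiset (FA n)) (p : Fin 4 → FA n × Fin 4) (φ : FA n),
      (Obj.brick cap fun _ => .face).Valid ∧
      IsObj (glueG b) (.brick cap fun _ => .face) M p ∧
      (∀ k, glueG b (φ, -k) (p k)) ∧
      ((φ ::ₘ M).map (fun F => (F.i, F.d))).Nodup ∧
      (∀ i d, (i, d) ∈ (φ ::ₘ M).map (fun F => (F.i, F.d)) ↔ (b i).face d ⊆ surface b) := by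
  obtain ⟨r, d, hr⟩ := gr_leaf h
  obtain ⟨g, hg⟩ := gr_exists_perp d
  obtain ⟨oc, Mc, pc, c1, c2, c3, c4, c5, c6, c7⟩ := gr_claim_all h r d g hg
  have hperp : ∀ k, (opp d).1 ≠ (rotd d g k).1 := fun k => (gr_rotd_perp d g hg k).symm
  have hgo : g.1 ≠ (opp d).1 := hg
  have hfree : ∀ e, e ≠ d → Free b T (r, e) := fun e he l hl => he (hr e l hl)
  set Fs : Fin 4 → FA n := fun k => ⟨r, rotd d g k, opp d, hperp k⟩ with hFs
  have hport : ∀ k m, AtEdge b (Fs k, m) r (rotd d g k) (rotd (rotd d g k) (opp d) m) := by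
    intro k m
    exact gr_face_port b (Fs k) m
  have hsub : ∀ e, e ≠ d → ∀ q, SubF b T r e q → q = (r, e) := by
    intro e he q hq
    rcases hq.2 with hq | ⟨c, hc, -⟩
    · exact hq
    · exact absurd (hr e c hc) he
  refine ⟨oc, Mc + ∑ k, {Fs k}, fun k => (Fs k, 0), ⟨r, opp d, g, hgo⟩, ?_, ?_, ?_, ?_, ?_⟩
  · refine ⟨c2, fun k => trivial, ?_⟩
    intro k hk
    simp [Obj.isB] at hk
  · refine IsObj.brick (ps := fun k m => (Fs k, m)) c1 (fun k => IsObj.face (Fs k)) ?_ ?_
    · intro k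
      refine gr_glue (j := r) (d := d) (e := rotd d g k) (gr_rotd_perp d g hg k).symm (c3 k) ?_
      have := hport k 2
      rwa [gr_side2 d g hg k] at this
    · intro k
      have e1 := hport k 1
      rw [gr_side1 d g hg k] at e1
      have e2 := hport (k + 1) 3
      rw [gr_side3 d g hg k] at e2
      refine gr_glue (j := r) ?_ e1 e2
      have : ∀ d g : Dir, g.1 ≠ d.1 → ∀ k : Fin 4, (rotd d g k).1 ≠ (rotd d g (k + 1)).1 := by
        decide
      exact this d g hg k
  · intro k
    have e0 := hport k 0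
    rw [gr_side0 d g hg k] at e0
    refine gr_glue (j := r) (d := opp d) (e := rotd d g k) (hperp k) ?_ e0
    have := gr_face_port b (⟨r, opp d, g, hgo⟩ : FA n) (-k)
    simp only [gr_rotd_neg d g hg k] at this
    exact this
  · rw [Multiset.map_cons, Multiset.nodup_cons, gr_mem_map_add, gr_map_add]
    refine ⟨?_, ?_⟩
    · rintro (hq | ⟨k, hq⟩)
      · rw [c5] at hq
        rcases hq.2 with hq | ⟨c, hc, hq⟩
        · exact gr_opp_ne d (Prod.mk.injEq _ _ _ _ ▸ hq).2
        · exact gr_not_mem r c hq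
      · rw [Multiset.map_singleton, Multiset.mem_singleton] at hq
        exact (gr_rotd_ne d g hg k).2 (Prod.mk.injEq _ _ _ _ ▸ hq).2.symm
    · refine gr_nodup_five _ _ c4 (fun k => by simp) ?_ ?_
      · intro k q hq hq'
        rw [c5] at hq
        rw [Multiset.map_singleton, Multiset.mem_singleton] at hq'
        subst hq'
        rcases hq.2 with hq | ⟨c, hc, hq⟩
        · exact (gr_rotd_ne d g hg k).1 (Prod.mk.injEq _ _ _ _ ▸ hq).2
        · exact gr_not_mem r c hq
      · intro k l hkl q hq hq'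
        rw [Multiset.map_singleton, Multiset.mem_singleton] at hq hq'
        rw [hq] at hq'
        exact hkl (gr_rotd_inj d g hg k l (Prod.mk.injEq _ _ _ _ ▸ hq').2)
  · intro j e
    rw [face_surf_iff h, Multiset.map_cons, Multiset.mem_cons, gr_mem_map_add, c5]
    simp only [Multiset.map_singleton, Multiset.mem_singleton]
    constructor
    · rintro (hq | hq | ⟨k, hq⟩)
      · have := hfree (opp d) (gr_opp_ne d)
        rw [← hq] at this
        exact this
      · exact hq.1
      · have := hfree (rotd d g k) (gr_rotd_ne d g hg k).1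
        rw [← hq] at this
        exact this
    · intro hf
      by_cases hj : j = r
      · subst hj
        rcases gr_exhaust d g hg e with rfl | rfl | ⟨k, rfl⟩
        · exact Or.inr (Or.inl ⟨hf, Or.inl rfl⟩)
        · exact Or.inl rfl
        · exact Or.inr (Or.inr ⟨k, rfl⟩)
      · obtain ⟨w⟩ := h.tree.1.preconnected r j
        obtain ⟨c', h1, -, h3⟩ := gr_first hj w
        obtain ⟨e', he'⟩ := exists_nb h h1
        have := hr e' c' he'
        subst this
        exact Or.inr (Or.inl ⟨hf, Or.inr ⟨c', he', h3⟩⟩)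

end Pool.Agent.OTree
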